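import Pool.Agent.Lib.MP_c99d13_lc.Defs

/-!
# Forward antidirected trails from connectedness of the bipartite representation
-/

set_option autoImplicit false

namespace Pool.Agent.Lib.MP_c99d13_lc

variable {W : Type}

/-- The bipartite representation of the digraph with arc set `A`. -/
def bip (A : W → W → Prop) : SimpleGraph (W ⊕ W) where
  Adj s t := match s, t with
    | .inl u, .inr w => A u w
    | .inr w, .inl u => A u w
    | _, _ => False
  symm := ⟨fun s t h => by cases s <;> cases t <;> exact h⟩
  loopless := ⟨fun s h => by cases s <;> exact h⟩

theorem forwardTrail_of_reachable {A : W → W → Prop} {x y : W}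
    (h : (bip A).Reachable (.inl x) (.inr y)) : ForwardTrail A x y := by
  classical
  obtain ⟨p, hp⟩ := h.exists_isPath
  -- the vertices on the path
  let v : ℕ → W := fun i => (p.getVert i).elim id id
  have hv : ∀ i, i ≤ p.length →
      p.getVert i = if i % 2 = 0 then .inl (v i) else .inr (v i) := by
    intro i
    induction i with
    | zero => intro _; simp [v]
    | succ i ih =>
      intro hi
      have h1 := ih (by omega)
      have h2 := p.adj_getVert_succ (i := i) (by omega)
      rcases Nat.mod_two_eq_zero_or_one i with h3 | h3
      · rw [h1, if_pos h3] at h2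
        rw [if_neg (by omega)]
        cases h4 : p.getVert (i + 1) with
        | inl a => rw [h4] at h2; exact h2.elim
        | inr a => simp [v, h4]
      · rw [h1, if_neg (by omega)] at h2
        rw [if_pos (by omega)]
        cases h4 : p.getVert (i + 1) with
        | inl a => simp [v, h4]
        | inr a => rw [h4] at h2; exact h2.elim
  have hlen : p.length % 2 = 1 := by
    have h1 := hv p.length le_rfl
    rw [p.getVert_length] at h1
    by_contra h2
    rw [if_pos (by omega)] at h1
    exact Sum.inr_ne_inl h1
  have hinj := hp.getVert_injOn
  have hvinj : ∀ i j, i ≤ p.length → j ≤ p.length → i % 2 = j % 2 → v i = v j → i = j := by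
    intro i j hi hj hij he
    apply hinj (by simpa using hi) (by simpa using hj)
    rw [hv i hi, hv j hj, hij, he]
  refine ⟨p.length / 2, v, by simp [v], ?_, ?_, ?_⟩
  · have h1 : 2 * (p.length / 2) + 1 = p.length := by omega
    rw [h1]; simp [v]
  · intro i hi
    have h2 := p.adj_getVert_succ (i := i) (by omega)
    rw [hv i (by omega), hv (i + 1) (by omega)] at h2
    unfold arcAt
    rcases Nat.mod_two_eq_zero_or_one i with h3 | h3
    · rw [if_pos h3, if_neg (by omega)] at h2
      rw [if_pos h3]; exact h2
    · rw [if_neg (by omega), if_pos (by omega)] at h2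
      rw [if_neg (by omega)]; exact h2
  · intro i hi j hj he
    unfold arcAt at he
    rcases Nat.mod_two_eq_zero_or_one i with h3 | h3 <;>
      rcases Nat.mod_two_eq_zero_or_one j with h4 | h4
    · rw [if_pos h3, if_pos h4, Prod.mk.injEq] at he
      exact hvinj i j (by omega) (by omega) (by omega) he.1
    · rw [if_pos h3, if_neg (by omega), Prod.mk.injEq] at he
      have h5 := hvinj i (j + 1) (by omega) (by omega) (by omega) he.1
      have h6 := hvinj (i + 1) j (by omega) (by omega) (by omega) he.2
      omega
    · rw [if_neg (by omega), if_pos h4, Prod.mk.injEq] at he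
      have h5 := hvinj (i + 1) j (by omega) (by omega) (by omega) he.1
      have h6 := hvinj i (j + 1) (by omega) (by omega) (by omega) he.2
      omega
    · rw [if_neg (by omega), if_neg (by omega), Prod.mk.injEq] at he
      exact hvinj i j (by omega) (by omega) (by omega) he.2

end Pool.Agent.Lib.MP_c99d13_lc
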