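import Pool.Agent.Lib.MP_c99d13_lc.Gadget
import Pool.Agent.Lib.MP_c99d13_lc.Trail

/-!
# A satisfying assignment gives a decomposition
-/

set_option autoImplicit false

namespace Pool.Agent.Lib.MP_c99d13_lc

open Relation

/-- The arcs of the strong part. -/
def Arc2 {N m : ℕ} (φ : CNF) (v : ℕ → Bool) : V N m → V N m → Prop
  | .blk b i _ _, .blk b' i' _ _ =>
      (b = b' ∧ i' = (i + 1) % 4) ∨ (b = 0 ∧ b' ≠ 0 ∧ i = 1 ∧ i' = 1)
  | .blk b i _ _, .p x j _ _ => i = 1 ∧ b = tp φ x j
  | .blk _ _ _ _, .q _ _ _ _ => False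
  | .p _ _ _ _, .blk _ _ _ _ => False
  | .p _ _ _ _, .p _ _ _ _ => False
  | .p x j _ _, .q x' j' _ _ => x = x' ∧ if v x then j = j' else j = suc (2 * m) j'
  | .q x j _ _, .blk b i _ _ => b = tq φ x j ∧ i = 1
  | .q _ _ _ _, .p _ _ _ _ => False
  | .q _ _ _ _, .q _ _ _ _ => False

theorem arc_of_arc2 {N m : ℕ} (φ : CNF) (v : ℕ → Bool) (s t : V N m) (h : Arc2 φ v s t) :
    Arc φ s t := by
  cases s with
  | blk b i hb hi =>
    cases t with
    | blk b' i' hb' hi' =>
      rcases h with ⟨h1, h2⟩ | ⟨h1, h2, h3, h4⟩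
      · left; refine ⟨h1, ?_⟩; omega
      · right; refine ⟨h1, h2, ?_, ?_⟩ <;> omega
    | p x j hx hj => exact Or.inr h
    | q x j hx hj => exact h.elim
  | p x j hx hj =>
    cases t with
    | blk b' i' hb' hi' => exact h.elim
    | p x j hx hj => exact h.elim
    | q x' j' hx' hj' =>
      obtain ⟨h1, h2⟩ := h
      refine ⟨h1, ?_⟩
      split_ifs at h2
      · exact Or.inl h2
      · exact Or.inr h2
  | q x j hx hj =>
    cases t with
    | blk b' i' hb' hi' => exact ⟨h.1, by have := h.2; omega⟩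
    | p x j hx hj => exact h.elim
    | q x' j' hx' hj' => exact h.elim

/-- The arcs of the antistrong part. -/
def Arc1 {N m : ℕ} (φ : CNF) (v : ℕ → Bool) (s t : V N m) : Prop := Arc φ s t ∧ ¬ Arc2 φ v s t

section

variable {N : ℕ} {φ : CNF} {v : ℕ → Bool}

theorem strong_arc2 (hN : ∀ c ∈ φ, ∀ l ∈ c, l.1 < N)
    (hv : ∀ c ∈ φ, ∃ l ∈ c, v l.1 = l.2) (s t : V N φ.length) :
    ReflTransGen (Arc2 φ v) s t := by
  -- moving inside a block
  have hstep : ∀ (b i : ℕ) (hb : b ≤ φ.length) (hi : i < 4),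
      ReflTransGen (Arc2 (N := N) φ v) (.blk b i hb hi)
        (.blk b ((i + 1) % 4) hb (by omega)) := by
    intro b i hb hi
    exact ReflTransGen.single (Or.inl ⟨rfl, rfl⟩)
  have hblk : ∀ (b i i' : ℕ) (hb : b ≤ φ.length) (hi : i < 4) (hi' : i' < 4),
      ReflTransGen (Arc2 (N := N) φ v) (.blk b i hb hi) (.blk b i' hb hi') := by
    intro b i i' hb hi hi'
    have h1 : ∀ d, ReflTransGen (Arc2 (N := N) φ v) (.blk b i hb hi)
        (.blk b ((i + d) % 4) hb (by omega)) := by
      intro d
      induction d with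
      | zero =>
        have : (i + 0) % 4 = i := by omega
        simp only [this]
        exact ReflTransGen.refl
      | succ d ih =>
        refine ih.trans ?_
        have h2 := hstep b ((i + d) % 4) hb (by omega)
        have : ((i + d) % 4 + 1) % 4 = (i + (d + 1)) % 4 := by omega
        simp only [this] at h2
        exact h2
    have h3 := h1 (i' + 4 - i)
    have : (i + (i' + 4 - i)) % 4 = i' := by omega
    simp only [this] at h3
    exact h3
  let R : V N φ.length := .blk 0 1 (Nat.zero_le _) (by omega)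
  -- the root reaches the blocks
  have hRb : ∀ (b i : ℕ) (hb : b ≤ φ.length) (hi : i < 4),
      ReflTransGen (Arc2 (N := N) φ v) R (.blk b i hb hi) := by
    intro b i hb hi
    rcases Nat.eq_zero_or_pos b with rfl | hb0
    · exact hblk 0 1 i hb (by omega) hi
    · have h1 : ReflTransGen (Arc2 (N := N) φ v) R (.blk b 1 hb (by omega)) :=
        ReflTransGen.single (Or.inr ⟨rfl, by omega, rfl, rfl⟩)
      exact h1.trans (hblk b 1 i hb (by omega) hi)
  have hRp : ∀ (x j : ℕ) (hx : x < N) (hj : j < 2 * φ.length),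
      ReflTransGen (Arc2 (N := N) φ v) R (.p x j hx hj) := by
    intro x j hx hj
    exact (hRb (tp φ x j) 1 (tp_le φ x j _ hj) (by omega)).tail ⟨rfl, rfl⟩
  have hRq : ∀ (x j : ℕ) (hx : x < N) (hj : j < 2 * φ.length),
      ReflTransGen (Arc2 (N := N) φ v) R (.q x j hx hj) := by
    intro x j hx hj
    by_cases h : v x = true
    · refine (hRp x j hx hj).tail ⟨rfl, ?_⟩
      rw [if_pos h]
    · refine (hRp x (suc (2 * φ.length) j) hx (suc_lt hj)).tail ⟨rfl, ?_⟩
      rw [if_neg h]
  -- everything reaches the root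
  have hqb : ∀ (x j : ℕ) (hx : x < N) (hj : j < 2 * φ.length),
      ReflTransGen (Arc2 (N := N) φ v) (.q x j hx hj)
        (.blk (tq φ x j) 1 (tq_le φ x j _ hj) (by omega)) := by
    intro x j hx hj
    exact ReflTransGen.single ⟨rfl, rfl⟩
  have hbR : ∀ (b i : ℕ) (hb : b ≤ φ.length) (hi : i < 4),
      ReflTransGen (Arc2 (N := N) φ v) (.blk b i hb hi) R := by
    intro b i hb hi
    rcases Nat.eq_zero_or_pos b with rfl | hb0
    · exact hblk 0 i 1 hb hi (by omega)
    · obtain ⟨k, rfl⟩ : ∃ k, b = k + 1 := ⟨b - 1, by omega⟩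
      have hk : k < φ.length := by omega
      have hget : φ.getD k [] = φ[k] := by simp [List.getD_eq_getElem?_getD, hk]
      obtain ⟨⟨x, s⟩, hl, hvl⟩ := hv φ[k] (List.getElem_mem hk)
      have hx : x < N := hN _ (List.getElem_mem hk) _ hl
      simp only at hvl
      have htp : tp φ x (2 * k + 1) = k + 1 := by
        unfold tp
        have h1 : (2 * k + 1) / 2 = k := by omega
        rw [if_neg (by omega), h1, hget, if_pos]
        cases s
        · exact Or.inr hl
        · exact Or.inl hl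
      refine (hblk (k + 1) i 1 hb hi (by omega)).trans ?_
      have e1 : Arc2 φ v (.blk (k + 1) 1 hb (by omega) : V N φ.length)
          (.p x (2 * k + 1) hx (by omega)) := ⟨rfl, htp.symm⟩
      refine ReflTransGen.head e1 ?_
      cases s with
      | true =>
        have htq : tq φ x (2 * k + 1) = 0 := by
          unfold tq
          have h1 : (2 * k + 1) / 2 = k := by omega
          rw [if_neg (by omega), h1, hget, if_neg]
          rintro ⟨_, h2⟩
          exact h2 hl
        have e2 : Arc2 φ v (.p x (2 * k + 1) hx (by omega) : V N φ.length)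
            (.q x (2 * k + 1) hx (by omega)) := ⟨rfl, by rw [if_pos hvl]⟩
        exact ReflTransGen.head e2 (ReflTransGen.single ⟨htq.symm, rfl⟩)
      | false =>
        have htq : tq φ x (2 * k) = 0 := by
          unfold tq
          have h1 : (2 * k) / 2 = k := by omega
          rw [if_pos (by omega), h1, hget, if_neg]
          rintro ⟨_, h2⟩
          exact h2 hl
        have e2 : Arc2 φ v (.p x (2 * k + 1) hx (by omega) : V N φ.length)
            (.q x (2 * k) hx (by omega)) := ⟨rfl, by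
              rw [if_neg (by simp [hvl])]
              unfold suc; rw [if_neg (by omega)]⟩
        exact ReflTransGen.head e2 (ReflTransGen.single ⟨htq.symm, rfl⟩)
  have hqR : ∀ (x j : ℕ) (hx : x < N) (hj : j < 2 * φ.length),
      ReflTransGen (Arc2 (N := N) φ v) (.q x j hx hj) R := by
    intro x j hx hj
    exact (hqb x j hx hj).trans (hbR _ _ _ _)
  have hpR : ∀ (x j : ℕ) (hx : x < N) (hj : j < 2 * φ.length),
      ReflTransGen (Arc2 (N := N) φ v) (.p x j hx hj) R := by
    intro x j hx hj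
    by_cases h : v x = true
    · have e2 : Arc2 φ v (.p x j hx hj : V N φ.length) (.q x j hx hj) :=
        ⟨rfl, by rw [if_pos h]⟩
      exact ReflTransGen.head e2 (hqR _ _ _ _)
    · obtain ⟨j', hj', e⟩ : ∃ j', j' < 2 * φ.length ∧ j = suc (2 * φ.length) j' := by
        rcases Nat.eq_zero_or_pos j with rfl | hj0
        · refine ⟨2 * φ.length - 1, by omega, ?_⟩
          unfold suc; rw [if_pos (by omega)]
        · refine ⟨j - 1, by omega, ?_⟩
          unfold suc; rw [if_neg (by omega)]; omega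
      have e2 : Arc2 φ v (.p x j hx hj : V N φ.length) (.q x j' hx hj') :=
        ⟨rfl, by rw [if_neg h]; exact e⟩
      exact ReflTransGen.head e2 (hqR _ _ _ _)
  have hsR : ∀ s : V N φ.length, ReflTransGen (Arc2 φ v) s R := by
    intro s; cases s with
    | blk b i hb hi => exact hbR _ _ _ _
    | p x j hx hj => exact hpR _ _ _ _
    | q x j hx hj => exact hqR _ _ _ _
  have hRt : ∀ t : V N φ.length, ReflTransGen (Arc2 φ v) R t := by
    intro t; cases t with
    | blk b i hb hi => exact hRb _ _ _ _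
    | p x j hx hj => exact hRp _ _ _ _
    | q x j hx hj => exact hRq _ _ _ _
  exact (hsR s).trans (hRt t)

theorem connected_arc1 (s t : V N φ.length) :
    (bip (Arc1 φ v)).Reachable (.inl s) (.inr t) := by
  have hadj : ∀ (s t : V N φ.length), Arc1 φ v s t →
      (bip (Arc1 φ v)).Reachable (.inl s) (.inr t) := fun s t h =>
    SimpleGraph.Adj.reachable (G := bip (Arc1 φ v)) h
  -- arcs inside a block
  have hin : ∀ (b i d : ℕ) (hb : b ≤ φ.length) (hi : i < 4) (_ : d = 2 ∨ d = 3),
      (bip (Arc1 (N := N) φ v)).Reachable (.inl (.blk b i hb hi))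
        (.inr (.blk b ((i + d) % 4) hb (by omega))) := by
    intro b i d hb hi hd
    apply hadj
    refine ⟨Or.inl ⟨rfl, by omega⟩, ?_⟩
    rintro (⟨_, h2⟩ | ⟨h1, h2, _, _⟩) <;> omega
  have hbr : ∀ (b i : ℕ) (hb : b ≤ φ.length) (hi : i < 4),
      (bip (Arc1 (N := N) φ v)).Reachable (.inr (.blk b i hb hi))
        (.inr (.blk b 0 hb (by omega))) := by
    intro b i hb hi
    have hone : ∀ (i : ℕ) (hi : i < 4), (bip (Arc1 (N := N) φ v)).Reachable
        (.inr (.blk b i hb hi)) (.inr (.blk b ((i + 1) % 4) hb (by omega))) := by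
      intro i hi
      have h1 := hin b ((i + 2) % 4) 2 hb (by omega) (Or.inl rfl)
      have h2 := hin b ((i + 2) % 4) 3 hb (by omega) (Or.inr rfl)
      have e1 : ((i + 2) % 4 + 2) % 4 = i := by omega
      have e2 : ((i + 2) % 4 + 3) % 4 = (i + 1) % 4 := by omega
      simp only [e1] at h1
      simp only [e2] at h2
      exact h1.symm.trans h2
    have h1 : ∀ d, (bip (Arc1 (N := N) φ v)).Reachable (.inr (.blk b i hb hi))
        (.inr (.blk b ((i + d) % 4) hb (by omega))) := by
      intro d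
      induction d with
      | zero =>
        have : (i + 0) % 4 = i := by omega
        simp only [this]
        exact SimpleGraph.Reachable.refl _
      | succ d ih =>
        refine ih.trans ?_
        have h2 := hone ((i + d) % 4) (by omega)
        have : ((i + d) % 4 + 1) % 4 = (i + (d + 1)) % 4 := by omega
        simp only [this] at h2
        exact h2
    have h3 := h1 (4 - i)
    have : (i + (4 - i)) % 4 = 0 := by omega
    simp only [this] at h3
    exact h3
  have hbl : ∀ (b i : ℕ) (hb : b ≤ φ.length) (hi : i < 4),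
      (bip (Arc1 (N := N) φ v)).Reachable (.inl (.blk b i hb hi))
        (.inr (.blk b 0 hb (by omega))) := by
    intro b i hb hi
    exact (hin b i 2 hb hi (Or.inl rfl)).trans (hbr b _ hb _)
  let T : V N φ.length ⊕ V N φ.length := .inr (.blk 0 0 (Nat.zero_le _) (by omega))
  have hbT : ∀ (b : ℕ) (hb : b ≤ φ.length), (bip (Arc1 (N := N) φ v)).Reachable
      (.inr (.blk b 0 hb (by omega))) T := by
    intro b hb
    rcases Nat.eq_zero_or_pos b with rfl | hb0
    · exact SimpleGraph.Reachable.refl _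
    · have h1 : (bip (Arc1 (N := N) φ v)).Reachable
          (.inl (.blk 0 0 (Nat.zero_le _) (by omega))) (.inr (.blk b 0 hb (by omega))) := by
        apply hadj
        refine ⟨Or.inr ⟨rfl, by omega, rfl, by omega⟩, ?_⟩
        rintro (⟨h1, h2⟩ | ⟨h1, h2, h3, h4⟩) <;> omega
      exact h1.symm.trans (hbl 0 0 _ _)
  have hrT : ∀ (b i : ℕ) (hb : b ≤ φ.length) (hi : i < 4),
      (bip (Arc1 (N := N) φ v)).Reachable (.inr (.blk b i hb hi)) T := fun b i hb hi =>
    (hbr b i hb hi).trans (hbT b hb)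
  have hlT : ∀ (b i : ℕ) (hb : b ≤ φ.length) (hi : i < 4),
      (bip (Arc1 (N := N) φ v)).Reachable (.inl (.blk b i hb hi)) T := fun b i hb hi =>
    (hbl b i hb hi).trans (hbT b hb)
  have hplT : ∀ (x j : ℕ) (hx : x < N) (hj : j < 2 * φ.length),
      (bip (Arc1 (N := N) φ v)).Reachable (.inl (.p x j hx hj)) T := by
    intro x j hx hj
    exact hadj _ _ ⟨⟨rfl, rfl⟩, fun h => h.elim⟩
  have hprT : ∀ (x j : ℕ) (hx : x < N) (hj : j < 2 * φ.length),
      (bip (Arc1 (N := N) φ v)).Reachable (.inr (.p x j hx hj)) T := by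
    intro x j hx hj
    have h1 : (bip (Arc1 (N := N) φ v)).Reachable
        (.inl (.blk 0 0 (Nat.zero_le _) (by omega))) (.inr (.p x j hx hj)) := by
      apply hadj
      refine ⟨Or.inl ⟨rfl, rfl⟩, ?_⟩
      rintro ⟨h, _⟩; omega
    exact h1.symm.trans (hlT _ _ _ _)
  have hqlT : ∀ (x j : ℕ) (hx : x < N) (hj : j < 2 * φ.length),
      (bip (Arc1 (N := N) φ v)).Reachable (.inl (.q x j hx hj)) T := by
    intro x j hx hj
    have h1 : (bip (Arc1 (N := N) φ v)).Reachable (.inl (.q x j hx hj))
        (.inr (.blk (tq φ x j) 0 (tq_le φ x j _ hj) (by omega))) := by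
      apply hadj
      refine ⟨⟨rfl, by omega⟩, ?_⟩
      rintro ⟨_, h⟩; omega
    exact h1.trans (hrT _ _ _ _)
  have hqrT : ∀ (x j : ℕ) (hx : x < N) (hj : j < 2 * φ.length),
      (bip (Arc1 (N := N) φ v)).Reachable (.inr (.q x j hx hj)) T := by
    intro x j hx hj
    have hne : suc (2 * φ.length) j ≠ j := by unfold suc; split_ifs <;> omega
    by_cases h : v x = true
    · have h1 : (bip (Arc1 (N := N) φ v)).Reachable
          (.inl (.p x (suc (2 * φ.length) j) hx (suc_lt hj))) (.inr (.q x j hx hj)) := by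
        apply hadj
        refine ⟨⟨rfl, Or.inr rfl⟩, ?_⟩
        rintro ⟨_, h2⟩
        rw [if_pos h] at h2
        exact hne h2
      exact h1.symm.trans (hplT _ _ _ _)
    · have h1 : (bip (Arc1 (N := N) φ v)).Reachable
          (.inl (.p x j hx hj)) (.inr (.q x j hx hj)) := by
        apply hadj
        refine ⟨⟨rfl, Or.inl rfl⟩, ?_⟩
        rintro ⟨_, h2⟩
        rw [if_neg h] at h2
        exact hne h2.symm
      exact h1.symm.trans (hplT _ _ _ _)
  have h1 : (bip (Arc1 φ v)).Reachable (.inl s) T := by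
    cases s with
    | blk b i hb hi => exact hlT _ _ _ _
    | p x j hx hj => exact hplT _ _ _ _
    | q x j hx hj => exact hqlT _ _ _ _
  have h2 : (bip (Arc1 φ v)).Reachable (.inr t) T := by
    cases t with
    | blk b i hb hi => exact hrT _ _ _ _
    | p x j hx hj => exact hprT _ _ _ _
    | q x j hx hj => exact hqrT _ _ _ _
  exact h1.trans h2.symm

end

/-- A decomposition of an arbitrary digraph, without the condition on the number of
vertices. -/
def Dec {W : Type} (A : W → W → Prop) : Prop :=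
  ∃ A₁ A₂ : W → W → Prop, (∀ u v, A₁ u v → A u v) ∧ (∀ u v, A₂ u v → A u v) ∧
    (∀ u v, ¬ (A₁ u v ∧ A₂ u v)) ∧ (∀ x y, x ≠ y → ForwardTrail A₁ x y) ∧
    (∀ x y, ReflTransGen A₂ x y)

theorem sat_iff_dec {N : ℕ} {φ : CNF} (hN : ∀ c ∈ φ, ∀ l ∈ c, l.1 < N) :
    Sat φ ↔ Dec (Arc (N := N) (m := φ.length) φ) := by
  constructor
  · rintro ⟨v, hv⟩
    refine ⟨Arc1 φ v, Arc2 φ v, fun _ _ h => h.1, arc_of_arc2 φ v, fun _ _ h => h.1.2 h.2,
      fun x y _ => forwardTrail_of_reachable (connected_arc1 x y), strong_arc2 hN hv⟩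
  · rintro ⟨A₁, A₂, h1, h2, h3, h4, h5⟩
    exact sound h1 h2 h3 h4 h5

end Pool.Agent.Lib.MP_c99d13_lc
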