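import Mathlib
import Pool.Agent.Lib.PolyTime.More

/-!
# Antistrong and strong arc-disjoint spanning subdigraphs: definitions
-/

set_option autoImplicit false

namespace Pool.Agent.Lib.MP_c99d13_lc

open Pool.Agent.PolyTime

/-- The arc used between the `i`-th and the `(i+1)`-st vertex of an antidirected walk
`v 0, v 1, v 2, …` whose first arc is forward: forward arcs at even places, backward arcs at
odd places. -/
def arcAt {V : Type} (v : ℕ → V) (i : ℕ) : V × V :=
  if i % 2 = 0 then (v i, v (i + 1)) else (v (i + 1), v i)

/-- In the spanning subdigraph with arc set `A` there is a forward antidirected trail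
`v 0, …, v (2k+1)` from `x` to `y`: its arcs alternate between forward and backward, the first
and the last one are forward, and no arc is repeated. -/
def ForwardTrail {V : Type} (A : V → V → Prop) (x y : V) : Prop :=
  ∃ (k : ℕ) (v : ℕ → V), v 0 = x ∧ v (2 * k + 1) = y ∧
    (∀ i < 2 * k + 1, A (arcAt v i).1 (arcAt v i).2) ∧
    (∀ i < 2 * k + 1, ∀ j < 2 * k + 1, arcAt v i = arcAt v j → i = j)

/-- The spanning subdigraph with arc set `A` is antistrong. -/
def Antistrong {n : ℕ} (A : Fin n → Fin n → Prop) : Prop :=
  3 ≤ n ∧ ∀ x y : Fin n, x ≠ y → ForwardTrail A x y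

/-- The spanning subdigraph with arc set `A` is strongly connected. -/
def Strong {n : ℕ} (A : Fin n → Fin n → Prop) : Prop :=
  ∀ x y : Fin n, Relation.ReflTransGen A x y

/-- A finite digraph without loops and parallel arcs, with vertex set `{0, …, n-1}`. -/
structure Dgr where
  /-- number of vertices -/
  n : ℕ
  /-- `Adj u v`: there is an arc from `u` to `v` -/
  Adj : Fin n → Fin n → Prop
  loopless : ∀ v, ¬ Adj v v

/-- `D` has two arc-disjoint spanning subdigraphs, the first one antistrong and the second
one strongly connected. -/
def Dgr.Decomposable (D : Dgr) : Prop :=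
  ∃ A₁ A₂ : Fin D.n → Fin D.n → Prop,
    (∀ u v, A₁ u v → D.Adj u v) ∧ (∀ u v, A₂ u v → D.Adj u v) ∧
    (∀ u v, ¬ (A₁ u v ∧ A₂ u v)) ∧ Antistrong A₁ ∧ Strong A₂

open Classical in
/-- The data written on the tape for a digraph: the number of vertices and the adjacency
matrix. -/
noncomputable def Dgr.data (D : Dgr) : ℕ × List (List Bool) :=
  (D.n, (List.finRange D.n).map fun i => (List.finRange D.n).map fun j => decide (D.Adj i j))

noncomputable instance : Rep Dgr := ⟨fun D => toT D.data⟩

/-- A literal: the index of a variable, and a sign (`true` for positive). -/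
abbrev Lit : Type := ℕ × Bool

/-- A formula in conjunctive normal form: a list of clauses, which are lists of literals. -/
abbrev CNF : Type := List (List Lit)

/-- Satisfiability of a formula in conjunctive normal form. -/
def Sat (φ : CNF) : Prop := ∃ v : ℕ → Bool, ∀ c ∈ φ, ∃ l ∈ c, v l.1 = l.2

end Pool.Agent.Lib.MP_c99d13_lc
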