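import Pool.Agent.Lib.MP_c99d13_lc.Defs

/-!
# The digraph of a formula, and correctness of the reduction
-/

set_option autoImplicit false

namespace Pool.Agent.Lib.MP_c99d13_lc

open Relation

/-- The vertices of the digraph. -/
inductive V (N m : ℕ) : Type
  | blk (b i : ℕ) (hb : b ≤ m) (hi : i < 4)
  | p (x j : ℕ) (hx : x < N) (hj : j < 2 * m)
  | q (x j : ℕ) (hx : x < N) (hj : j < 2 * m)

/-- Cyclic successor. -/
def suc (K j : ℕ) : ℕ := if j + 1 = K then 0 else j + 1

/-- The block from which `p x j` is entered. -/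
def tp (φ : CNF) (x j : ℕ) : ℕ :=
  if j % 2 = 0 then 0 else
    if (x, true) ∈ φ.getD (j / 2) [] ∨ (x, false) ∈ φ.getD (j / 2) [] then j / 2 + 1 else 0

/-- The block to which `q x j` leads. -/
def tq (φ : CNF) (x j : ℕ) : ℕ :=
  if j % 2 = 0 then
    if (x, true) ∈ φ.getD (j / 2) [] ∧ (x, false) ∉ φ.getD (j / 2) [] then j / 2 + 1 else 0
  else
    if (x, false) ∈ φ.getD (j / 2) [] ∧ (x, true) ∉ φ.getD (j / 2) [] then j / 2 + 1 else 0

theorem tp_le (φ : CNF) (x j m : ℕ) (hj : j < 2 * m) : tp φ x j ≤ m := by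
  unfold tp; split_ifs <;> omega

theorem tq_le (φ : CNF) (x j m : ℕ) (hj : j < 2 * m) : tq φ x j ≤ m := by
  unfold tq; split_ifs <;> omega

/-- The arcs of the digraph. -/
def Arc {N m : ℕ} (φ : CNF) : V N m → V N m → Prop
  | .blk b i _ _, .blk b' i' _ _ =>
      (b = b' ∧ i ≠ i') ∨ (b = 0 ∧ b' ≠ 0 ∧ i = i' ∧ i ≤ 1)
  | .blk b i _ _, .p x j _ _ => (b = 0 ∧ i = 0) ∨ (i = 1 ∧ b = tp φ x j)
  | .blk _ _ _ _, .q _ _ _ _ => False
  | .p _ _ _ _, .blk b i _ _ => b = 0 ∧ i = 0
  | .p _ _ _ _, .p _ _ _ _ => False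
  | .p x j _ _, .q x' j' _ _ => x = x' ∧ (j = j' ∨ j = suc (2 * m) j')
  | .q x j _ _, .blk b i _ _ => b = tq φ x j ∧ i ≤ 1
  | .q _ _ _ _, .p _ _ _ _ => False
  | .q _ _ _ _, .q _ _ _ _ => False

theorem suc_lt {K j : ℕ} (hj : j < K) : suc K j < K := by unfold suc; split_ifs <;> omega

theorem suc_inj {K j j' : ℕ} (hj : j < K) (hj' : j' < K) (h : suc K j = suc K j') : j = j' := by
  unfold suc at h; split_ifs at h <;> omega

/-! ### Consequences of the existence of a forward trail -/

theorem ForwardTrail.first {W : Type} {A : W → W → Prop} {x y : W} (h : ForwardTrail A x y) :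
    A x y ∨ ∃ z w, A x z ∧ A w z ∧ w ≠ x := by
  obtain ⟨k, v, hx, hy, hA, hd⟩ := h
  rcases Nat.eq_zero_or_pos k with rfl | hk
  · left
    have := hA 0 (by omega)
    simpa [arcAt, hx, hy] using this
  · right
    have h0 := hA 0 (by omega)
    have h1 := hA 1 (by omega)
    refine ⟨v 1, v 2, ?_, ?_, ?_⟩
    · simpa [arcAt, hx] using h0
    · simpa [arcAt] using h1
    · intro h2
      have := hd 0 (by omega) 1 (by omega) (by simp [arcAt, h2, hx])
      omega

theorem ForwardTrail.last {W : Type} {A : W → W → Prop} {x y : W} (h : ForwardTrail A x y) :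
    ∃ z, A z y := by
  obtain ⟨k, v, hx, hy, hA, hd⟩ := h
  have h0 := hA (2 * k) (by omega)
  refine ⟨v (2 * k), ?_⟩
  simpa [arcAt, hy] using h0

section sound

variable {N : ℕ} {φ : CNF} {A₁ A₂ : V N φ.length → V N φ.length → Prop}

/-- A decomposition of the digraph gives a satisfying assignment. -/
theorem sound (h1 : ∀ u v, A₁ u v → Arc φ u v) (h2 : ∀ u v, A₂ u v → Arc φ u v)
    (hd : ∀ u v, ¬ (A₁ u v ∧ A₂ u v)) (ha : ∀ x y, x ≠ y → ForwardTrail A₁ x y)
    (hs : ∀ x y, ReflTransGen A₂ x y) : Sat φ := by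
  classical
  -- in-arcs of `q x j`
  have hin : ∀ (x j : ℕ) (hx : x < N) (hj : j < 2 * φ.length) (u : V N φ.length),
      Arc φ u (.q x j hx hj) → u = .p x j hx hj ∨
        u = .p x (suc (2 * φ.length) j) hx (suc_lt hj) := by
    intro x j hx hj u hu
    cases u with
    | blk b i hb hi => exact hu.elim
    | p x' j' hx' hj' =>
      obtain ⟨h3, h4 | h4⟩ := hu
      · left; subst h3; subst h4; rfl
      · right; subst h3; subst h4; rfl
    | q x' j' hx' hj' => exact hu.elim
  -- every vertex has an in-arc and an out-arc in A₂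
  have h2in : ∀ (v w : V N φ.length), v ≠ w → ∃ u, A₂ u v := by
    intro v w hvw
    rcases (ReflTransGen.cases_tail (hs w v)) with h | ⟨u, _, hu⟩
    · exact absurd h hvw
    · exact ⟨u, hu⟩
  have h2out : ∀ (v w : V N φ.length), v ≠ w → ∃ u, A₂ v u := by
    intro v w hvw
    rcases (ReflTransGen.cases_head (hs v w)) with h | ⟨u, hu, _⟩
    · exact absurd h hvw
    · exact ⟨u, hu⟩
  let t : V N φ.length := .blk 0 0 (Nat.zero_le _) (by omega)
  -- the arcs entering `q x j`: one in each part
  have hq1 : ∀ (x j : ℕ) (hx : x < N) (hj : j < 2 * φ.length),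
      ∃ u, A₁ u (.q x j hx hj) := fun x j hx hj =>
    (ha t (.q x j hx hj) (by simp [t])).last
  have hq2 : ∀ (x j : ℕ) (hx : x < N) (hj : j < 2 * φ.length),
      ∃ u, A₂ u (.q x j hx hj) := fun x j hx hj => h2in _ t (by simp [t])
  -- `p x j → t` belongs to A₁
  have hpt : ∀ (x j : ℕ) (hx : x < N) (hj : j < 2 * φ.length), A₁ (.p x j hx hj) t := by
    intro x j hx hj
    rcases (ha (.p x j hx hj) t (by simp [t])).first with h | ⟨z, w, hz, hw, hne⟩
    · exact h
    · cases z with
      | blk b i hb hi =>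
        have h3 := h1 _ _ hz
        obtain ⟨rfl, rfl⟩ := h3
        exact hz
      | p _ _ _ _ => exact (h1 _ _ hz).elim
      | q x' j' hx' hj' =>
        exfalso
        obtain ⟨u, hu⟩ := hq2 x' j' hx' hj'
        have e1 := hin _ _ _ _ _ (h1 _ _ hz)
        have e2 := hin _ _ _ _ _ (h1 _ _ hw)
        have e3 := hin _ _ _ _ _ (h2 _ _ hu)
        rcases e1 with e1 | e1 <;> rcases e2 with e2 | e2
        · exact hne (e2.trans e1.symm)
        · rcases e3 with e3 | e3
          · rw [e3, ← e1] at hu; exact hd _ _ ⟨hz, hu⟩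
          · rw [e3, ← e2] at hu; exact hd _ _ ⟨hw, hu⟩
        · rcases e3 with e3 | e3
          · rw [e3, ← e2] at hu; exact hd _ _ ⟨hw, hu⟩
          · rw [e3, ← e1] at hu; exact hd _ _ ⟨hz, hu⟩
        · exact hne (e2.trans e1.symm)
  -- out-arcs of `p x j` in A₂
  have hp2 : ∀ (x j : ℕ) (hx : x < N) (hj : j < 2 * φ.length) (w : V N φ.length),
      A₂ (.p x j hx hj) w → ∃ (j' : ℕ) (hj' : j' < 2 * φ.length), w = .q x j' hx hj' ∧
        (j = j' ∨ j = suc (2 * φ.length) j') := by
    intro x j hx hj w hw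
    cases w with
    | blk b i hb hi =>
      exfalso
      obtain ⟨rfl, rfl⟩ := h2 _ _ hw
      exact hd _ _ ⟨hpt x j hx hj, hw⟩
    | p _ _ _ _ => exact (h2 _ _ hw).elim
    | q x' j' hx' hj' =>
      obtain ⟨rfl, h4⟩ := h2 _ _ hw
      exact ⟨j', hj', rfl, h4⟩
  -- if A₂ has `p j → q j`, then A₁ has `p (j+1) → q j`
  have hA : ∀ (x j : ℕ) (hx : x < N) (hj : j < 2 * φ.length),
      A₂ (.p x j hx hj) (.q x j hx hj) →
        A₁ (.p x (suc (2 * φ.length) j) hx (suc_lt hj)) (.q x j hx hj) := by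
    intro x j hx hj h
    obtain ⟨u, hu⟩ := hq1 x j hx hj
    rcases hin _ _ _ _ _ (h1 _ _ hu) with e | e
    · subst e; exact absurd ⟨hu, h⟩ (hd _ _)
    · subst e; exact hu
  have hstep : ∀ (x j : ℕ) (hx : x < N) (hj : j < 2 * φ.length),
      A₂ (.p x j hx hj) (.q x j hx hj) →
        A₂ (.p x (suc (2 * φ.length) j) hx (suc_lt hj))
          (.q x (suc (2 * φ.length) j) hx (suc_lt hj)) := by
    intro x j hx hj h
    obtain ⟨w, hw⟩ := h2out (.p x (suc (2 * φ.length) j) hx (suc_lt hj)) t (by simp [t])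
    obtain ⟨j', hj', rfl, h4 | h4⟩ := hp2 _ _ _ _ _ hw
    · subst h4; exact hw
    · have h5 := suc_inj hj hj' h4
      subst h5
      exact absurd ⟨hA x j hx hj h, hw⟩ (hd _ _)
  -- all or nothing
  let P : ℕ → ℕ → Prop := fun x j =>
    ∃ (hx : x < N) (hj : j < 2 * φ.length), A₂ (.p x j hx hj) (.q x j hx hj)
  have hP1 : ∀ x j, j + 1 < 2 * φ.length → P x j → P x (j + 1) := by
    rintro x j hj1 ⟨hx, hj, h⟩
    have h3 := hstep x j hx hj h
    have h4 : suc (2 * φ.length) j = j + 1 := by unfold suc; rw [if_neg (by omega)]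
    refine ⟨hx, hj1, ?_⟩
    simpa only [h4] using h3
  have hP2 : ∀ x j, j + 1 = 2 * φ.length → P x j → P x 0 := by
    rintro x j hj1 ⟨hx, hj, h⟩
    have h3 := hstep x j hx hj h
    have h4 : suc (2 * φ.length) j = 0 := by unfold suc; rw [if_pos hj1]
    refine ⟨hx, by omega, ?_⟩
    simpa only [h4] using h3
  have hP3 : ∀ x d j, j + d < 2 * φ.length → P x j → P x (j + d) := by
    intro x d
    induction d with
    | zero => intro j _ h; exact h
    | succ d ih => intro j hj h; exact hP1 x _ (by omega) (ih j (by omega) h)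
  have hP4 : ∀ x j, P x j → P x 0 := by
    intro x j h
    obtain ⟨hx, hj, h'⟩ := h
    have h3 := hP3 x (2 * φ.length - 1 - j) j (by omega) ⟨hx, hj, h'⟩
    exact hP2 x _ (by omega) h3
  have hP5 : ∀ x j, j < 2 * φ.length → P x 0 → P x j := by
    intro x j hj h
    have h3 := hP3 x j 0 (by omega) h
    simpa using h3
  refine ⟨fun x => decide (P x 0), ?_⟩
  by_contra hcon
  push Not at hcon
  obtain ⟨c, hc, hcl⟩ := hcon
  obtain ⟨i, hi, rfl⟩ := List.mem_iff_getElem.1 hc
  have hget : φ.getD i [] = φ[i] := by simp [List.getD_eq_getElem?_getD, hi]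
  let C : V N φ.length → Prop := fun u => match u with
    | .blk b _ _ _ => b = i + 1
    | .p x j _ _ => tp φ x j = i + 1
    | .q x j _ _ => tq φ x j = i + 1
  have hC : ∀ u w, C u → A₂ u w → C w := by
    intro u w hu huw
    cases u with
    | blk b k hb hk =>
      have hu' : b = i + 1 := hu
      have h3 := h2 _ _ huw
      cases w with
      | blk b' k' hb' hk' =>
        rcases h3 with ⟨h3, _⟩ | ⟨h3, _⟩
        · change b' = i + 1; omega
        · omega
      | p x j hx hj =>
        rcases h3 with ⟨h3, _⟩ | ⟨_, h3⟩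
        · omega
        · change tp φ x j = i + 1; omega
      | q _ _ _ _ => exact h3.elim
    | q x j hx hj =>
      have hu' : tq φ x j = i + 1 := hu
      have h3 := h2 _ _ huw
      cases w with
      | blk b' k' hb' hk' => obtain ⟨h3, _⟩ := h3; change b' = i + 1; omega
      | p _ _ _ _ => exact h3.elim
      | q _ _ _ _ => exact h3.elim
    | p x j hx hj =>
      have hu' : tp φ x j = i + 1 := hu
      obtain ⟨j', hj', rfl, hjj⟩ := hp2 _ _ _ _ _ huw
      change tq φ x j' = i + 1
      have hodd : j % 2 = 1 ∧ j / 2 = i := by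
        unfold tp at hu'; split_ifs at hu' <;> omega
      have hocc : (x, true) ∈ φ[i] ∨ (x, false) ∈ φ[i] := by
        unfold tp at hu'
        rw [if_neg (by omega), hodd.2, hget] at hu'
        by_contra hno
        rw [if_neg hno] at hu'
        omega
      by_cases hPx : P x 0
      · -- variable true
        have hnp : (x, true) ∉ φ[i] := fun hmem => by
          have := hcl _ hmem; simp [hPx] at this
        have hj'eq : j = j' := by
          rcases hjj with h | h
          · exact h
          · exfalso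
            obtain ⟨_, _, h5⟩ := hP5 x j' hj' hPx
            have h6 := hA x j' hx hj' h5
            simp only [← h] at h6
            exact hd _ _ ⟨h6, huw⟩
        subst hj'eq
        unfold tq
        rw [if_neg (by omega), hodd.2, hget, if_pos ⟨by tauto, hnp⟩]
      · have hnp : (x, false) ∉ φ[i] := fun hmem => by
          have := hcl _ hmem; simp [hPx] at this
        have hj'eq : j = suc (2 * φ.length) j' := by
          rcases hjj with h | h
          · exfalso
            subst h
            exact hPx (hP4 x j ⟨hx, hj, huw⟩)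
          · exact h
        have h7 : j = j' + 1 := by
          unfold suc at hj'eq; split_ifs at hj'eq <;> omega
        unfold tq
        have h8 : j' / 2 = i := by omega
        rw [if_pos (by omega), h8, hget, if_pos ⟨by tauto, hnp⟩]
  have hC' : ∀ u w, C u → ReflTransGen A₂ u w → C w := by
    intro u w hu huw
    induction huw with
    | refl => exact hu
    | tail _ h ih => exact hC _ _ ih h
  have h9 : C t := hC' (.blk (i + 1) 0 (by omega) (by omega)) t rfl (hs _ _)
  have h10 : (0 : ℕ) = i + 1 := h9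
  omega

end sound

end Pool.Agent.Lib.MP_c99d13_lc
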