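import Pool.Agent.Lib.MP_c99d13_lc.Complete

/-!
# The reduction as a function on lists, and its polynomial-time computability
-/

set_option autoImplicit false

namespace Pool.Agent.Lib.MP_c99d13_lc

open Relation Pool.Agent.PolyTime

/-- A bound for the indices of the variables. -/
def nvar (φ : CNF) : ℕ := (φ.flatten.map fun l => l.1 + 1).sum

theorem lt_nvar (φ : CNF) : ∀ c ∈ φ, ∀ l ∈ c, l.1 < nvar φ := by
  intro c hc l hl
  have h1 : l.1 + 1 ∈ φ.flatten.map fun l => l.1 + 1 :=
    List.mem_map.2 ⟨l, List.mem_flatten.2 ⟨c, hc, hl⟩, rfl⟩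
  have h2 := List.single_le_sum (l := φ.flatten.map fun l => l.1 + 1) (by intro x _; omega) _ h1
  unfold nvar; omega

/-- Codes of vertices. -/
abbrev Vtx : Type := ℕ × (ℕ × ℕ)

/-- The list of the codes of the vertices. -/
def verts (φ : CNF) : List Vtx :=
  ((List.range (φ.length + 1) ×ˢ List.range 4).map fun p => ((0, p) : Vtx)) ++
  (((List.range (nvar φ) ×ˢ List.range (2 * φ.length)).map fun p => ((1, p) : Vtx)) ++
  ((List.range (nvar φ) ×ˢ List.range (2 * φ.length)).map fun p => ((2, p) : Vtx)))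

theorem nodup_verts (φ : CNF) : (verts φ).Nodup := by
  have h : ∀ (a b c : ℕ), ((List.range a ×ˢ List.range b).map
      fun p => ((c, p) : Vtx)).Nodup := by
    intro a b c
    apply List.Nodup.map
    · intro p q h; simpa using h
    · exact List.Nodup.product List.nodup_range List.nodup_range
  unfold verts
  rw [List.nodup_append, List.nodup_append]
  refine ⟨h _ _ _, ⟨h _ _ _, h _ _ _, ?_⟩, ?_⟩
  · intro a ha b hb hab
    obtain ⟨p, _, rfl⟩ := List.mem_map.1 ha
    obtain ⟨q, _, rfl⟩ := List.mem_map.1 hb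
    simp at hab
  · intro a ha b hb hab
    obtain ⟨p, _, rfl⟩ := List.mem_map.1 ha
    rcases List.mem_append.1 hb with hb | hb <;>
    · obtain ⟨q, _, rfl⟩ := List.mem_map.1 hb
      simp at hab

/-- The code of a vertex. -/
def code {N m : ℕ} : V N m → Vtx
  | .blk b i _ _ => (0, (b, i))
  | .p x j _ _ => (1, (x, j))
  | .q x j _ _ => (2, (x, j))

theorem code_injective {N m : ℕ} : Function.Injective (code (N := N) (m := m)) := by
  intro s t h
  cases s <;> cases t <;> simp_all [code]

theorem code_mem {φ : CNF} (s : V (nvar φ) φ.length) : code s ∈ verts φ := by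
  unfold verts
  rw [List.mem_append, List.mem_append]
  cases s with
  | blk b i hb hi =>
    left
    exact List.mem_map.2 ⟨(b, i), List.mem_product.2 ⟨List.mem_range.2 (by omega),
      List.mem_range.2 hi⟩, rfl⟩
  | p x j hx hj =>
    right; left
    exact List.mem_map.2 ⟨(x, j), List.mem_product.2 ⟨List.mem_range.2 hx,
      List.mem_range.2 hj⟩, rfl⟩
  | q x j hx hj =>
    right; right
    exact List.mem_map.2 ⟨(x, j), List.mem_product.2 ⟨List.mem_range.2 hx,
      List.mem_range.2 hj⟩, rfl⟩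

theorem exists_of_mem {φ : CNF} {u : Vtx} (h : u ∈ verts φ) :
    ∃ s : V (nvar φ) φ.length, code s = u := by
  unfold verts at h
  rw [List.mem_append, List.mem_append] at h
  rcases h with h | h | h
  · obtain ⟨⟨b, i⟩, h1, rfl⟩ := List.mem_map.1 h
    obtain ⟨h1, h2⟩ := List.mem_product.1 h1
    rw [List.mem_range] at h1 h2
    exact ⟨.blk b i (by omega) h2, rfl⟩
  · obtain ⟨⟨b, i⟩, h1, rfl⟩ := List.mem_map.1 h
    obtain ⟨h1, h2⟩ := List.mem_product.1 h1
    rw [List.mem_range] at h1 h2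
    exact ⟨.p b i h1 h2, rfl⟩
  · obtain ⟨⟨b, i⟩, h1, rfl⟩ := List.mem_map.1 h
    obtain ⟨h1, h2⟩ := List.mem_product.1 h1
    rw [List.mem_range] at h1 h2
    exact ⟨.q b i h1 h2, rfl⟩

/-- Adjacency on codes. -/
def adjC (φ : CNF) (u w : Vtx) : Prop :=
  (u.1 = 0 ∧ w.1 = 0 ∧ ((u.2.1 = w.2.1 ∧ ¬ u.2.2 = w.2.2) ∨
    (u.2.1 = 0 ∧ ¬ w.2.1 = 0 ∧ u.2.2 = w.2.2 ∧ u.2.2 ≤ 1))) ∨
  (u.1 = 0 ∧ w.1 = 1 ∧ ((u.2.1 = 0 ∧ u.2.2 = 0) ∨
    (u.2.2 = 1 ∧ u.2.1 = tp φ w.2.1 w.2.2))) ∨
  (u.1 = 1 ∧ w.1 = 0 ∧ w.2.1 = 0 ∧ w.2.2 = 0) ∨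
  (u.1 = 1 ∧ w.1 = 2 ∧ u.2.1 = w.2.1 ∧
    (u.2.2 = w.2.2 ∨ u.2.2 = suc (2 * φ.length) w.2.2)) ∨
  (u.1 = 2 ∧ w.1 = 0 ∧ w.2.1 = tq φ u.2.1 u.2.2 ∧ w.2.2 ≤ 1)

instance (φ : CNF) (u w : Vtx) : Decidable (adjC φ u w) := by unfold adjC; infer_instance

theorem adjC_code {φ : CNF} (s t : V (nvar φ) φ.length) :
    adjC φ (code s) (code t) ↔ Arc φ s t := by
  cases s <;> cases t <;> simp [adjC, code, Arc]

theorem adjC_irrefl (φ : CNF) (u : Vtx) : ¬ adjC φ u u := by
  unfold adjC; omega

/-- The digraph of a formula. -/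
def graph (φ : CNF) : Dgr where
  n := (verts φ).length
  Adj i j := adjC φ ((verts φ).get i) ((verts φ).get j)
  loopless i := adjC_irrefl φ _

/-- The bijection between vertices and codes. -/
noncomputable def vEquiv (φ : CNF) : V (nvar φ) φ.length ≃ {u // u ∈ verts φ} :=
  Equiv.ofBijective (fun s => ⟨code s, code_mem s⟩)
    ⟨fun s t h => code_injective (by simpa using h), fun u => by
      obtain ⟨s, hs⟩ := exists_of_mem u.2
      exact ⟨s, Subtype.ext hs⟩⟩

noncomputable def fEquiv (φ : CNF) : Fin (graph φ).n ≃ V (nvar φ) φ.length :=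
  (List.Nodup.getEquiv (verts φ) (nodup_verts φ)).trans (vEquiv φ).symm

theorem code_fEquiv (φ : CNF) (i : Fin (graph φ).n) :
    code (fEquiv φ i) = (verts φ).get i := by
  have h : (vEquiv φ) (fEquiv φ i) = List.Nodup.getEquiv (verts φ) (nodup_verts φ) i :=
    (vEquiv φ).apply_symm_apply _
  have h2 := congrArg Subtype.val h
  exact h2

theorem arcAt_comp {α β : Type} (e : α → β) (v : ℕ → α) (i : ℕ) :
    arcAt (fun k => e (v k)) i = (e (arcAt v i).1, e (arcAt v i).2) := by
  unfold arcAt; split_ifs <;> rfl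

theorem Dec.transfer {α β : Type} (e : α ≃ β) {A : α → α → Prop} {B : β → β → Prop}
    (h : ∀ i j, A i j ↔ B (e i) (e j)) (hA : Dec A) : Dec B := by
  obtain ⟨A₁, A₂, h1, h2, h3, h4, h5⟩ := hA
  refine ⟨fun u w => A₁ (e.symm u) (e.symm w), fun u w => A₂ (e.symm u) (e.symm w), ?_, ?_, ?_,
    ?_, ?_⟩
  · intro u w huw
    have := (h _ _).1 (h1 _ _ huw)
    simpa using this
  · intro u w huw
    have := (h _ _).1 (h2 _ _ huw)
    simpa using this
  · intro u w; exact h3 _ _
  · intro x y hxy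
    obtain ⟨k, v, hx, hy, ha, hd⟩ := h4 (e.symm x) (e.symm y) (fun h => hxy (e.symm.injective h))
    refine ⟨k, fun i => e (v i), by simp [hx], by simp [hy], ?_, ?_⟩
    · intro i hi
      rw [arcAt_comp]
      simpa using ha i hi
    · intro i hi j hj hij
      rw [arcAt_comp e v i, arcAt_comp e v j, Prod.mk.injEq, e.injective.eq_iff,
        e.injective.eq_iff] at hij
      exact hd i hi j hj (Prod.ext hij.1 hij.2)
  · intro x y
    have h6 := h5 (e.symm x) (e.symm y)
    have h7 : ∀ a b, ReflTransGen A₂ a b →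
        ReflTransGen (fun u w => A₂ (e.symm u) (e.symm w)) (e a) (e b) := by
      intro a b hab
      induction hab with
      | refl => exact ReflTransGen.refl
      | tail _ hbc ih => exact ih.tail (by simpa using hbc)
    simpa using h7 _ _ h6

theorem length_verts (φ : CNF) : 4 ≤ (verts φ).length := by
  unfold verts
  simp only [List.length_append, List.length_map, List.length_product, List.length_range]
  have : 4 ≤ (φ.length + 1) * 4 := by omega
  omega

theorem decomposable_iff_dec (D : Dgr) (h : 3 ≤ D.n) : D.Decomposable ↔ Dec D.Adj := by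
  constructor
  · rintro ⟨A₁, A₂, h1, h2, h3, h4, h5⟩
    exact ⟨A₁, A₂, h1, h2, h3, h4.2, h5⟩
  · rintro ⟨A₁, A₂, h1, h2, h3, h4, h5⟩
    exact ⟨A₁, A₂, h1, h2, h3, ⟨h, h4⟩, h5⟩

theorem sat_iff (φ : CNF) : Sat φ ↔ (graph φ).Decomposable := by
  have hn : 3 ≤ (graph φ).n := by
    have := length_verts φ
    change 3 ≤ (verts φ).length
    omega
  rw [decomposable_iff_dec _ hn, sat_iff_dec (lt_nvar φ)]
  have h : ∀ i j, (graph φ).Adj i j ↔ Arc φ (fEquiv φ i) (fEquiv φ j) := by
    intro i j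
    rw [← adjC_code, code_fEquiv, code_fEquiv]
    exact Iff.rfl
  constructor
  · intro hD
    refine hD.transfer (fEquiv φ).symm ?_
    intro i j
    rw [h]; simp
  · intro hD
    exact hD.transfer (fEquiv φ) h

/-! ### The data of the digraph -/

theorem map_finRange_get {α β : Type} (l : List α) (f : α → β) :
    (List.finRange l.length).map (fun i => f (l.get i)) = l.map f := by
  apply List.ext_getElem
  · simp
  · intro i h1 h2; simp

theorem data_graph (φ : CNF) : (graph φ).data =
    ((verts φ).length, (verts φ).map fun u => (verts φ).map fun w => decide (adjC φ u w)) := by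
  classical
  have h : (graph φ).data = ((verts φ).length, (List.finRange (verts φ).length).map fun i =>
      (List.finRange (verts φ).length).map fun j =>
        decide (adjC φ ((verts φ).get i) ((verts φ).get j))) := by
    unfold Dgr.data
    refine Prod.ext rfl ?_
    apply List.map_congr_left
    intro i _
    apply List.map_congr_left
    intro j _
    rw [decide_eq_decide]
    exact Iff.rfl
  rw [h]
  refine Prod.ext rfl ?_
  change (List.finRange (verts φ).length).map (fun i =>
      (List.finRange (verts φ).length).map fun j =>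
        decide (adjC φ ((verts φ).get i) ((verts φ).get j))) = _
  rw [← map_finRange_get (verts φ) (fun u => (verts φ).map fun w => decide (adjC φ u w))]
  apply List.map_congr_left
  intro i _
  exact map_finRange_get (verts φ) (fun w => decide (adjC φ ((verts φ).get i) w))

/-! ### Polynomial-time computability -/

universe u
variable {α : Type u} [Rep α]

theorem PT_nvar : PT nvar :=
  PT.sum (PT.map (g := fun (_ : CNF) (l : Lit) => l.1 + 1) (PT.flatten PT.id)
    PT.id.snd.fst.succ)

theorem PT_product {a b : α → ℕ} {c : ℕ} (ha : PT a) (hb : PT b) :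
    PT (fun t => ((List.range (a t) ×ˢ List.range (b t)).map fun p => ((c, p) : Vtx))) := by
  have h1 : PT (fun t => (List.range (a t)).flatMap fun i =>
      (List.range (b t)).map fun j => ((c, (i, j)) : Vtx)) := by
    refine PT.flatMap (g := fun t i => (List.range (b t)).map fun j => ((c, (i, j)) : Vtx))
      (PT.range ha) ?_
    exact PT.map (α := α × ℕ) (g := fun p j => ((c, (p.2, j)) : Vtx))
      (PT.range (hb.comp PT.id.fst))
      (PT.pair (PT.const c) (PT.pair PT.id.fst.snd PT.id.snd))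
  refine h1.congr fun t => ?_
  change _ = List.map _ (List.flatMap _ _)
  rw [List.map_flatMap]
  congr 1
  funext i
  rw [List.map_map]
  rfl

theorem PT_verts : PT verts :=
  PT.append (PT_product (PT.succ (PT.length PT.id)) (PT.const 4))
    (PT.append (PT_product PT_nvar (PT.mul (PT.const 2) (PT.length PT.id)))
      (PT_product PT_nvar (PT.mul (PT.const 2) (PT.length PT.id))))

theorem PT_memLit {φ : α → CNF} {x j : α → ℕ} {s : Bool} (hφ : PT φ) (hx : PT x) (hj : PT j) :
    PT (fun a => decide ((x a, s) ∈ (φ a).getD (j a / 2) [])) :=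
  (PT.contains (x := fun a => (x a, s)) (l := fun a => (φ a).getD (j a / 2) [])
    (PT.pair hx (PT.const s))
    (PT.listGetD (d := fun _ => ([] : List Lit)) hφ (PT.div hj (PT.const 2))
      (PT.const []))).congr fun a => by simp [List.contains_iff_mem, List.elem_eq_mem]

theorem PT_tp {φ : α → CNF} {x j : α → ℕ} (hφ : PT φ) (hx : PT x) (hj : PT j) :
    PT (fun a => tp (φ a) (x a) (j a)) := by
  unfold tp
  exact PT.iteProp (PT.natEq (PT.mod hj (PT.const 2)) (PT.const 0)) (PT.const 0)
    (PT.iteProp (PT.decOr (PT_memLit hφ hx hj) (PT_memLit hφ hx hj))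
      (PT.div hj (PT.const 2)).succ (PT.const 0))

theorem PT_tq {φ : α → CNF} {x j : α → ℕ} (hφ : PT φ) (hx : PT x) (hj : PT j) :
    PT (fun a => tq (φ a) (x a) (j a)) := by
  unfold tq
  exact PT.iteProp (PT.natEq (PT.mod hj (PT.const 2)) (PT.const 0))
    (PT.iteProp (PT.decAnd (PT_memLit hφ hx hj) (PT.decNot (PT_memLit hφ hx hj)))
      (PT.div hj (PT.const 2)).succ (PT.const 0))
    (PT.iteProp (PT.decAnd (PT_memLit hφ hx hj) (PT.decNot (PT_memLit hφ hx hj)))
      (PT.div hj (PT.const 2)).succ (PT.const 0))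

theorem PT_suc {K j : α → ℕ} (hK : PT K) (hj : PT j) : PT (fun a => suc (K a) (j a)) :=
  PT.iteProp (PT.natEq hj.succ hK) (PT.const 0) hj.succ

theorem PT_adjC {φ : α → CNF} {u w : α → Vtx} (hφ : PT φ) (hu : PT u) (hw : PT w) :
    PT (fun a => decide (adjC (φ a) (u a) (w a))) := by
  have z : PT (fun _ : α => (0 : ℕ)) := PT.const 0
  have o : PT (fun _ : α => (1 : ℕ)) := PT.const 1
  have d : PT (fun _ : α => (2 : ℕ)) := PT.const 2
  have h1 := PT.decAnd (PT.natEq hu.fst z) (PT.decAnd (PT.natEq hw.fst z)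
    (PT.decOr (PT.decAnd (PT.natEq hu.snd.fst hw.snd.fst)
        (PT.decNot (PT.natEq hu.snd.snd hw.snd.snd)))
      (PT.decAnd (PT.natEq hu.snd.fst z) (PT.decAnd (PT.decNot (PT.natEq hw.snd.fst z))
        (PT.decAnd (PT.natEq hu.snd.snd hw.snd.snd) (PT.le hu.snd.snd o))))))
  have h2 := PT.decAnd (PT.natEq hu.fst z) (PT.decAnd (PT.natEq hw.fst o)
    (PT.decOr (PT.decAnd (PT.natEq hu.snd.fst z) (PT.natEq hu.snd.snd z))
      (PT.decAnd (PT.natEq hu.snd.snd o)
        (PT.natEq hu.snd.fst (PT_tp hφ hw.snd.fst hw.snd.snd)))))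
  have h3 := PT.decAnd (PT.natEq hu.fst o) (PT.decAnd (PT.natEq hw.fst z)
    (PT.decAnd (PT.natEq hw.snd.fst z) (PT.natEq hw.snd.snd z)))
  have h4 := PT.decAnd (PT.natEq hu.fst o) (PT.decAnd (PT.natEq hw.fst d)
    (PT.decAnd (PT.natEq hu.snd.fst hw.snd.fst)
      (PT.decOr (PT.natEq hu.snd.snd hw.snd.snd)
        (PT.natEq hu.snd.snd (PT_suc (PT.mul (PT.const 2) (PT.length hφ)) hw.snd.snd)))))
  have h5 := PT.decAnd (PT.natEq hu.fst d) (PT.decAnd (PT.natEq hw.fst z)
    (PT.decAnd (PT.natEq hw.snd.fst (PT_tq hφ hu.snd.fst hu.snd.snd))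
      (PT.le hw.snd.snd o)))
  exact (PT.decOr h1 (PT.decOr h2 (PT.decOr h3 (PT.decOr h4 h5)))).congr fun a => by
    rw [decide_eq_decide]; exact Iff.rfl

theorem PT_matrix : PT (fun φ : CNF =>
    (verts φ).map fun u => (verts φ).map fun w => decide (adjC φ u w)) := by
  refine PT.map (g := fun (φ : CNF) (u : Vtx) => (verts φ).map fun w => decide (adjC φ u w))
    PT_verts ?_
  exact PT.map (α := CNF × Vtx) (g := fun p w => decide (adjC p.1 p.2 w))
    (PT_verts.comp PT.id.fst) (PT_adjC PT.id.fst.fst PT.id.fst.snd PT.id.snd)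

/-- The reduction is computable in polynomial time. -/
theorem PT_graph : PT graph := by
  have h : PT (fun φ => (graph φ).data) :=
    (PT.pair (PT.length PT_verts) PT_matrix).congr fun φ => (data_graph φ).symm
  exact h

/-! ### The encoding of digraphs is injective -/

theorem Dgr.data_injective : Function.Injective Dgr.data := by
  classical
  intro D D' h
  obtain ⟨n, A, hA⟩ := D
  obtain ⟨n', A', hA'⟩ := D'
  unfold Dgr.data at h
  simp only [Prod.mk.injEq] at h
  obtain ⟨h1, h2⟩ := h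
  subst h1
  have : A = A' := by
    funext i j
    have h3 := (List.map_inj_left.1 h2) i (List.mem_finRange i)
    have h4 := (List.map_inj_left.1 h3) j (List.mem_finRange j)
    simpa using h4
  subst this
  rfl

instance : InjRep Dgr := ⟨fun _ _ h =>
  Dgr.data_injective (InjRep.inj (α := ℕ × List (List Bool)) h)⟩

end Pool.Agent.Lib.MP_c99d13_lc
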